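import Pool.Agent.Helper15.BP.Law

/-!
# Intersection of the subgroups of the pairs (project BP, MP_a4e7e3_co, note 2102, step 5)
-/

set_option autoImplicit false

namespace Pool.Agent.Helper15.BP

open Finset

namespace S5

variable {G : Type} [AddCommGroup G] [Fintype G]

/-- A law as a family without side information. -/
def ofLaw (p : G → ℝ) (hp : IsPr p) : Fam G where
  Ω := G
  ι := Unit
  fin := inferInstance
  w := p
  hw := hp
  J := fun _ => ()
  Y := fun x => x

theorem D_ofLaw {p : G → ℝ} (hp : IsPr p) (H : AddSubgroup G) : (ofLaw p hp).D H = DL p H := by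
  unfold Fam.D Fam.c DL
  have h1 : Ent (ofLaw p hp).w (fun o => ((ofLaw p hp).J o,
      (QuotientAddGroup.mk ((ofLaw p hp).Y o) : G ⧸ H))) =
      Ent p (fun x => (QuotientAddGroup.mk x : G ⧸ H)) := by
    refine Ent_congr (w := p) fun o o' => ?_
    simp only [Prod.mk.injEq]
    exact ⟨fun h => h.2, fun h => ⟨rfl, h⟩⟩
  have h2 : Ent (ofLaw p hp).w (ofLaw p hp).J = 0 := Ent_const hp ()
  rw [h1, h2, sub_zero]

theorem DL_anti {p : G → ℝ} (hp : IsPr p) {K H : AddSubgroup G} (h : K ≤ H) :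
    DL p H ≤ DL p K := by
  rw [← D_ofLaw hp, ← D_ofLaw hp]
  exact Fam.D_anti _ h

theorem DL_nonneg {p : G → ℝ} (hp : IsPr p) (H : AddSubgroup G) : 0 ≤ DL p H := by
  rw [← D_ofLaw hp]
  exact Fam.D_nonneg _ H

theorem DL_supermod {p : G → ℝ} (hp : IsPr p) (H K : AddSubgroup G) :
    DL p H + DL p K ≤ DL p (H ⊓ K) + DL p (H ⊔ K) := by
  rw [← D_ofLaw hp, ← D_ofLaw hp, ← D_ofLaw hp, ← D_ofLaw hp]
  exact Fam.D_supermod _ H K

/-- Data processing, first summand. -/
theorem DL_conv_left {p q : G → ℝ} (hp : IsPr p) (hq : IsPr q) (H : AddSubgroup G) :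
    DL (conv p q) H ≤ DL p H := by
  have h1 := Fam.D_add_le (ofLaw p hp) (ofLaw q hq) H
  rw [D_ofLaw] at h1
  refine le_trans (le_of_eq ?_) h1
  unfold Fam.D Fam.c DL
  congr 1
  rw [Ent_conv]
  have h2 : Ent ((ofLaw p hp).add (ofLaw q hq)).w (fun o => (((ofLaw p hp).add (ofLaw q hq)).J o,
      (QuotientAddGroup.mk (((ofLaw p hp).add (ofLaw q hq)).Y o) : G ⧸ H))) =
      Ent (prodW p q) (fun t => (QuotientAddGroup.mk (t.1 + t.2) : G ⧸ H)) := by
    refine Ent_congr (w := prodW p q) fun o o' => ?_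
    simp only [Prod.mk.injEq]
    exact ⟨fun h => h.2, fun h => ⟨rfl, h⟩⟩
  have h3 : Ent ((ofLaw p hp).add (ofLaw q hq)).w ((ofLaw p hp).add (ofLaw q hq)).J = 0 :=
    Ent_const (hp.prod hq) ((), ())
  rw [h2, h3, sub_zero]

theorem conv_comm (p q : G → ℝ) : conv p q = conv q p := by
  funext z
  unfold conv
  refine Fintype.sum_equiv (Equiv.subLeft z) _ _ fun x => ?_
  rw [Equiv.subLeft_apply, sub_sub_cancel, mul_comm]

/-- Data processing, second summand. -/
theorem DL_conv_right {p q : G → ℝ} (hp : IsPr p) (hq : IsPr q) (H : AddSubgroup G) :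
    DL (conv p q) H ≤ DL q H := by
  rw [conv_comm]
  exact DL_conv_left hq hp H

/-- Conditional data processing. -/
theorem DL_conv_cond {p q : G → ℝ} (hp : IsPr p) (hq : IsPr q) {H K : AddSubgroup G}
    (h : H ≤ K) : DL (conv p q) H - DL (conv p q) K ≤ DL p H - DL p K := by
  have h1 := Ent_submod (w := prodW p q) (hp.prod hq)
    (fun t => (QuotientAddGroup.mk (t.1 + t.2) : G ⧸ H)) (fun t => t.2)
    (fun t => (QuotientAddGroup.mk (t.1 + t.2) : G ⧸ K))
  have e1 : Ent (prodW p q) (fun t => ((QuotientAddGroup.mk (t.1 + t.2) : G ⧸ H), t.2,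
      (QuotientAddGroup.mk (t.1 + t.2) : G ⧸ K))) =
      Ent (prodW p q) (fun t => ((fun x => (QuotientAddGroup.mk x : G ⧸ H)) t.1,
        (fun x => x) t.2)) := by
    refine Ent_congr fun o o' => ?_
    simp only [Prod.mk.injEq, Fam.mk_eq_iff]
    constructor
    · rintro ⟨a, b, -⟩
      rw [b] at a
      exact ⟨by simpa using a, b⟩
    · rintro ⟨a, b⟩
      have a' : o.1 + o.2 - (o'.1 + o'.2) ∈ H := by
        rw [b]
        simpa using a
      exact ⟨a', b, h a'⟩
  have e2 : Ent (prodW p q) (fun t => (t.2, (QuotientAddGroup.mk (t.1 + t.2) : G ⧸ K))) =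
      Ent (prodW p q) (fun t => ((fun x => (QuotientAddGroup.mk x : G ⧸ K)) t.1,
        (fun x => x) t.2)) := by
    refine Ent_congr fun o o' => ?_
    simp only [Prod.mk.injEq, Fam.mk_eq_iff]
    constructor
    · rintro ⟨b, a⟩
      rw [b] at a
      exact ⟨by simpa using a, b⟩
    · rintro ⟨a, b⟩
      refine ⟨b, ?_⟩
      rw [b]
      simpa using a
  have e3 : Ent (prodW p q) (fun t => ((QuotientAddGroup.mk (t.1 + t.2) : G ⧸ H),
      (QuotientAddGroup.mk (t.1 + t.2) : G ⧸ K))) =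
      Ent (prodW p q) (fun t => (QuotientAddGroup.mk (t.1 + t.2) : G ⧸ H)) := by
    refine Ent_congr fun o o' => ?_
    simp only [Prod.mk.injEq, Fam.mk_eq_iff]
    exact ⟨fun a => a.1, fun a => ⟨a, h a⟩⟩
  have q1 := Ent_prod hp hq (fun x => (QuotientAddGroup.mk x : G ⧸ H)) (fun x : G => x)
  have q2 := Ent_prod hp hq (fun x => (QuotientAddGroup.mk x : G ⧸ K)) (fun x : G => x)
  rw [e1, e2, e3, q1, q2] at h1
  unfold DL
  rw [Ent_conv, Ent_conv]
  linarith

theorem log_index_nonneg (K : AddSubgroup G) : 0 ≤ Real.log K.index := by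
  refine Real.log_nonneg ?_
  have : K.index ≠ 0 := AddSubgroup.index_ne_zero_of_finite
  exact_mod_cast Nat.one_le_iff_ne_zero.2 this

/-- Growth of the deficiency under intersections. -/
theorem DL_inf {β : Type} {p : G → ℝ} (hp : IsPr p) (S : Finset β)
    (Hp : β → AddSubgroup G)
    (h : ∀ b ∈ S, ∀ K, Hp b ≤ K →
      (1/4) * (Real.log (Hp b).index - Real.log K.index) ≤ DL p (Hp b) - DL p K) :
    (1/4) * Real.log (S.inf Hp).index ≤ DL p (S.inf Hp) := by
  classical
  induction S using Finset.induction_on with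
  | empty =>
    rw [Finset.inf_empty, AddSubgroup.index_top, Nat.cast_one, Real.log_one, mul_zero]
    exact DL_nonneg hp _
  | insert b S hb ih =>
    rw [Finset.inf_insert]
    have h1 := ih fun c hc => h c (Finset.mem_insert_of_mem hc)
    have h2 := h b (Finset.mem_insert_self b S) (Hp b ⊔ S.inf Hp) le_sup_left
    have h3 := DL_supermod hp (Hp b) (S.inf Hp)
    have h4 := Fam.log_index_modular (Hp b) (S.inf Hp)
    linarith

end S5

open S5

/-- **Step 5.** -/
theorem step5 {G : Type} [AddCommGroup G] [Fintype G] (F : Fam G) (H : AddSubgroup G)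
    (κ C₁ : ℝ) (hκ : 0 ≤ κ)
    (hH : ∀ K ≤ H, F.D K - F.D H ≤ κ * (Real.log K.index - Real.log H.index))
    (Hp : F.Ω → F.Ω → AddSubgroup G)
    (h1 : ∀ a b, 0 < F.w a → 0 < F.w b →
      DL (conv (F.lawAt a) (F.lawAt b)) ⊥ - C₁ * dd (conv (F.lawAt a) (F.lawAt b)) ≤
        DL (conv (F.lawAt a) (F.lawAt b)) (Hp a b))
    (h2 : ∀ a b, 0 < F.w a → 0 < F.w b → ∀ K, Hp a b ≤ K →
      (1/4) * (Real.log (Hp a b).index - Real.log K.index) ≤
        DL (conv (F.lawAt a) (F.lawAt b)) (Hp a b) - DL (conv (F.lawAt a) (F.lawAt b)) K) :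
    ∑ o : F.Ω × F.Ω, prodW F.w F.w o * (DL (conv (F.lawAt o.1) (F.lawAt o.2)) ⊥ -
      C₁ * dd (conv (F.lawAt o.1) (F.lawAt o.2))) ≤ F.D H + 4 * κ * F.D ⊥ := by
  classical
  have hlaw : ∀ a, 0 < F.w a → IsPr (F.lawAt a) := fun a ha =>
    isPr_law F.hw F.Y F.J (F.J a) (pr_pos F.hw F.J ha).ne'
  set X : F.Ω → F.Ω → ℝ := fun a b => DL (conv (F.lawAt a) (F.lawAt b)) ⊥ -
    C₁ * dd (conv (F.lawAt a) (F.lawAt b)) with hX
  -- one member
  have key : ∀ a, 0 < F.w a → ∑ b, F.w b * X a b ≤ F.D H + 4 * κ * DL (F.lawAt a) ⊥ := by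
    intro a ha
    have hpa := hlaw a ha
    set S : Finset F.Ω := Finset.univ.filter (fun b => 0 < F.w b) with hS
    set N : AddSubgroup G := S.inf (Hp a) with hN
    have hN1 : (1/4) * Real.log N.index ≤ DL (F.lawAt a) N := by
      refine DL_inf hpa S (Hp a) fun b hb K hK => ?_
      have hb' : 0 < F.w b := (Finset.mem_filter.1 hb).2
      exact (h2 a b ha hb' K hK).trans (DL_conv_cond hpa (hlaw b hb') hK)
    have hN2 : DL (F.lawAt a) N ≤ DL (F.lawAt a) ⊥ := DL_anti hpa bot_le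
    have hN3 : ∑ b, F.w b * X a b ≤ F.D N := by
      rw [F.D_eq_sum]
      refine Finset.sum_le_sum fun b _ => ?_
      rcases (F.hw.nonneg b).eq_or_lt with h0 | h0
      · rw [← h0, zero_mul, zero_mul]
      · refine mul_le_mul_of_nonneg_left ?_ h0.le
        have hb : b ∈ S := Finset.mem_filter.2 ⟨Finset.mem_univ b, h0⟩
        have hle : N ≤ Hp a b := Finset.inf_le hb
        calc X a b ≤ DL (conv (F.lawAt a) (F.lawAt b)) (Hp a b) := h1 a b ha h0
          _ ≤ DL (F.lawAt b) (Hp a b) := DL_conv_right hpa (hlaw b h0) _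
          _ ≤ DL (F.lawAt b) N := DL_anti (hlaw b h0) hle
    have hN4 : F.D N ≤ F.D (H ⊓ N) := F.D_anti inf_le_right
    have hN5 := hH (H ⊓ N) inf_le_left
    have hN6 := Fam.log_index_modular H N
    have hN7 := log_index_nonneg (H ⊔ N)
    have hN8 : κ * (Real.log (H ⊓ N).index - Real.log H.index) ≤ κ * Real.log N.index :=
      mul_le_mul_of_nonneg_left (by linarith) hκ
    have hN9 : κ * Real.log N.index ≤ κ * (4 * DL (F.lawAt a) ⊥) :=
      mul_le_mul_of_nonneg_left (by linarith) hκ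
    linarith
  have hsum : ∑ o : F.Ω × F.Ω, prodW F.w F.w o * X o.1 o.2 =
      ∑ a, F.w a * ∑ b, F.w b * X a b := by
    rw [Fintype.sum_prod_type]
    refine Finset.sum_congr rfl fun a _ => ?_
    rw [Finset.mul_sum]
    refine Finset.sum_congr rfl fun b _ => ?_
    unfold prodW
    ring
  show ∑ o : F.Ω × F.Ω, prodW F.w F.w o * X o.1 o.2 ≤ _
  rw [hsum]
  calc ∑ a, F.w a * ∑ b, F.w b * X a b
      ≤ ∑ a, F.w a * (F.D H + 4 * κ * DL (F.lawAt a) ⊥) := by
        refine Finset.sum_le_sum fun a _ => ?_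
        rcases (F.hw.nonneg a).eq_or_lt with h0 | h0
        · rw [← h0, zero_mul, zero_mul]
        · exact mul_le_mul_of_nonneg_left (key a h0) h0.le
    _ = F.D H + 4 * κ * F.D ⊥ := by
        have e : ∀ a, F.w a * (F.D H + 4 * κ * DL (F.lawAt a) ⊥) =
            F.w a * F.D H + 4 * κ * (F.w a * DL (F.lawAt a) ⊥) := fun a => by ring
        rw [Finset.sum_congr rfl fun a _ => e a, Finset.sum_add_distrib, ← Finset.sum_mul,
          F.hw.sum_one, one_mul, ← Finset.mul_sum, ← F.D_eq_sum]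

end Pool.Agent.Helper15.BP
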